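import Pool.Agent.W70.HRC.Stm

/-!
# Project HRC of helper70, part EXC: few exceptional `H`
-/

set_option autoImplicit false

open Finset

namespace Pool.Agent.W407.HRC

open Pool.Agent.H361R2.PP
open Pool.Agent.W70.HR
open Pool.Agent.W70.HRC

theorem card_pi (T K : ℕ) (R : Finset ℕ) :
    (Fintype.piFinset (fun _ : Fin T => Fintype.piFinset (fun _ : Fin K => R))).card =
      R.card ^ (T * K) := by
  rw [Fintype.card_piFinset]
  simp only [Fintype.card_piFinset, Finset.prod_const, Finset.card_univ, Fintype.card_fin]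
  rw [← pow_mul, mul_comm]

/-- the main counting argument -/
theorem count {T K k : ℕ} (δm Λ δ : ℝ) (X b : ℕ) (V : Finset ℕ) (hVB : V ⊆ Bw Λ X b)
    (y : ℝ) (hlow : ∀ H : Fin T → Fin K → ℕ, (∀ g i, H g i ∈ Bw Λ X b) →
      Function.Injective (fun x : Fin T × Fin K => H x.1 x.2) →
      y ≤ (hitsC δm Λ k X b T K H : ℝ)) (hpos : 0 ≤ δ * ex X (k + 1)) :
    ((ExC (fun F => δ * ex X (k + 1) ≤ (cnB X b F : ℝ)) k T K V).card : ℝ) * y ≤
      ((T * K : ℕ) : ℝ) ^ (T * K) * ((V.card : ℝ) ^ (k + 1) * (δ * ex X (k + 1))) := by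
  classical
  set E := ExC (fun F => δ * ex X (k + 1) ≤ (cnB X b F : ℝ)) k T K V with hE
  set Bad : Finset (Finset ℕ) := (V.powersetCard (k + 1)).filter
    (fun F => (cnB X b F : ℝ) < δ * ex X (k + 1)) with hBad
  set Ba : Finset ℕ := (SI X b).filter (fun n => ∃ F ∈ Bad, Cns n F) with hBa
  -- the size of the bad set
  have h1 : (Ba.card : ℝ) ≤ (V.card : ℝ) ^ (k + 1) * (δ * ex X (k + 1)) := by
    have h2 : Ba ⊆ Bad.biUnion fun F => (SI X b).filter (fun n => Cns n F) := by
      intro n hn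
      rw [hBa, Finset.mem_filter] at hn
      obtain ⟨hn1, F, hF, hp⟩ := hn
      exact Finset.mem_biUnion.2 ⟨F, hF, Finset.mem_filter.2 ⟨hn1, hp⟩⟩
    have h3 : Ba.card ≤ ∑ F ∈ Bad, cnB X b F := by
      refine (Finset.card_le_card h2).trans (Finset.card_biUnion_le.trans ?_)
      refine Finset.sum_le_sum fun y _ => ?_
      unfold cnB
      apply le_of_eq
      congr
    have h4 : (Ba.card : ℝ) ≤ ∑ F ∈ Bad, (cnB X b F : ℝ) := by exact_mod_cast h3
    have h5 : ∑ F ∈ Bad, (cnB X b F : ℝ) ≤ ∑ _F ∈ Bad, δ * ex X (k + 1) :=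
      Finset.sum_le_sum fun F hF => by
        rw [hBad, Finset.mem_filter] at hF
        exact hF.2.le
    rw [Finset.sum_const, nsmul_eq_mul] at h5
    refine h4.trans (h5.trans ?_)
    apply mul_le_mul_of_nonneg_right _ hpos
    have h6 : Bad.card ≤ V.card ^ (k + 1) := by
      refine (Finset.card_le_card (Finset.filter_subset _ _)).trans ?_
      rw [Finset.card_powersetCard]
      exact Nat.choose_le_pow _ _
    exact_mod_cast h6
  -- the exceptional `H`
  have h2 : ∀ H ∈ E, y ≤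
      ((Ba.filter fun n => (∀ g i, rg (P1 (HH X) (JJ δm X)) (H g i) n = 1) ∧
        ∀ a ∈ Bw Λ X b, rg (P1 (HH X) (JJ δm X)) a n = 1 → ∃ g i, H g i = a).card : ℝ) := by
    intro H hH
    rw [hE] at hH
    unfold ExC at hH
    rw [Finset.mem_filter, Fintype.mem_piFinset] at hH
    obtain ⟨hH1, hH2, hH3⟩ := hH
    have hHV : ∀ g i, H g i ∈ V := fun g i => Fintype.mem_piFinset.1 (hH1 g) i
    refine (hlow H (fun g i => hVB (hHV g i)) hH2).trans ?_
    have h3 : hitsC δm Λ k X b T K H ≤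
        (Ba.filter fun n => (∀ g i, rg (P1 (HH X) (JJ δm X)) (H g i) n = 1) ∧
          ∀ a ∈ Bw Λ X b, rg (P1 (HH X) (JJ δm X)) a n = 1 → ∃ g i, H g i = a).card := by
      unfold hitsC
      apply Finset.card_le_card
      intro n hn
      rw [Finset.mem_filter] at hn
      obtain ⟨hn1, hn2, hn3, S, c, hS, hC⟩ := hn
      refine Finset.mem_filter.2 ⟨?_, hn2, hn3⟩
      rw [hBa, Finset.mem_filter]
      refine ⟨hn1, S.image (fun g => H g (c g)), ?_, ?_⟩
      · rw [hBad, Finset.mem_filter, Finset.mem_powersetCard]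
        refine ⟨⟨?_, ?_⟩, ?_⟩
        · intro a ha
          obtain ⟨g, _, rfl⟩ := Finset.mem_image.1 ha
          exact hHV _ _
        · rw [Finset.card_image_of_injective, hS]
          intro g g' hg
          have := @hH2 (g, c g) (g', c g') hg
          exact congrArg Prod.fst this
        · by_contra hcon
          push Not at hcon
          refine hH3 ⟨S, c, hS, ?_⟩
          convert hcon
      · convert hC
    exact_mod_cast h3
  have h3 : (E.card : ℝ) * y ≤ ((T * K : ℕ) : ℝ) ^ (T * K) * (Ba.card : ℝ) := by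
    calc (E.card : ℝ) * y = ∑ _H ∈ E, y := by rw [Finset.sum_const, nsmul_eq_mul]
      _ ≤ ∑ H ∈ E,
          ((Ba.filter fun n => (∀ g i, rg (P1 (HH X) (JJ δm X)) (H g i) n = 1) ∧
            ∀ a ∈ Bw Λ X b, rg (P1 (HH X) (JJ δm X)) a n = 1 → ∃ g i, H g i = a).card : ℝ) :=
          Finset.sum_le_sum h2
      _ = ∑ H ∈ E, ∑ n ∈ Ba,
          (if (∀ g i, rg (P1 (HH X) (JJ δm X)) (H g i) n = 1) ∧
            ∀ a ∈ Bw Λ X b, rg (P1 (HH X) (JJ δm X)) a n = 1 → ∃ g i, H g i = a
            then (1 : ℝ) else 0) := by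
          refine Finset.sum_congr rfl fun H _ => ?_
          rw [Finset.sum_boole]
      _ = ∑ n ∈ Ba, ∑ H ∈ E,
          (if (∀ g i, rg (P1 (HH X) (JJ δm X)) (H g i) n = 1) ∧
            ∀ a ∈ Bw Λ X b, rg (P1 (HH X) (JJ δm X)) a n = 1 → ∃ g i, H g i = a
            then (1 : ℝ) else 0) := Finset.sum_comm
      _ ≤ ∑ _n ∈ Ba, ((T * K : ℕ) : ℝ) ^ (T * K) := by
          refine Finset.sum_le_sum fun n _ => ?_
          rw [Finset.sum_boole]
          by_cases hne : (E.filter (fun H =>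
              (∀ g i, rg (P1 (HH X) (JJ δm X)) (H g i) n = 1) ∧
              ∀ a ∈ Bw Λ X b, rg (P1 (HH X) (JJ δm X)) a n = 1 → ∃ g i, H g i = a)).Nonempty
          · obtain ⟨H0, hH0⟩ := hne
            rw [Finset.mem_filter] at hH0
            obtain ⟨_, _, hH03⟩ := hH0
            have h4 : (E.filter (fun H => (∀ g i, rg (P1 (HH X) (JJ δm X)) (H g i) n = 1) ∧
                ∀ a ∈ Bw Λ X b, rg (P1 (HH X) (JJ δm X)) a n = 1 → ∃ g i, H g i = a)) ⊆
                Fintype.piFinset (fun _ : Fin T => Fintype.piFinset (fun _ : Fin K =>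
                  (Bw Λ X b).filter fun a => rg (P1 (HH X) (JJ δm X)) a n = 1)) := by
              intro H hH
              rw [Finset.mem_filter] at hH
              obtain ⟨hH1, hH2, _⟩ := hH
              rw [hE] at hH1
              unfold ExC at hH1
              rw [Finset.mem_filter, Fintype.mem_piFinset] at hH1
              rw [Fintype.mem_piFinset]
              intro g
              rw [Fintype.mem_piFinset]
              intro i
              exact Finset.mem_filter.2 ⟨hVB (Fintype.mem_piFinset.1 (hH1.1 g) i), hH2 g i⟩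
            have h5 := Finset.card_le_card h4
            rw [card_pi] at h5
            have h6 : ((Bw Λ X b).filter fun a => rg (P1 (HH X) (JJ δm X)) a n = 1).card ≤
                T * K := by
              have h7 : ((Bw Λ X b).filter fun a => rg (P1 (HH X) (JJ δm X)) a n = 1) ⊆
                  (univ : Finset (Fin T × Fin K)).image (fun x => H0 x.1 x.2) := by
                intro a ha
                rw [Finset.mem_filter] at ha
                obtain ⟨g, i, hgi⟩ := hH03 a ha.1 ha.2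
                exact Finset.mem_image.2 ⟨(g, i), Finset.mem_univ _, hgi⟩
              refine (Finset.card_le_card h7).trans (Finset.card_image_le.trans ?_)
              simp
            have h8 := h5.trans (Nat.pow_le_pow_left h6 (T * K))
            exact_mod_cast h8
          · rw [Finset.not_nonempty_iff_eq_empty] at hne
            rw [hne]
            simp only [Finset.card_empty, Nat.cast_zero]
            positivity
      _ = ((T * K : ℕ) : ℝ) ^ (T * K) * (Ba.card : ℝ) := by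
          rw [Finset.sum_const, nsmul_eq_mul, mul_comm]
  exact h3.trans (mul_le_mul_of_nonneg_left h1 (by positivity))

theorem exc : S_EXC := by
  classical
  intro hMV _ k T K Λ hT hK hΛ hMT η ε hη hε
  obtain ⟨δm, c, hδm0, hδm1, hc, X₁, hX₁⟩ := hMT
  obtain ⟨cV, hcV, hMV⟩ := hMV
  obtain ⟨X₃, hX₃⟩ := hMV δm hδm0 (by linarith)
  by_cases hTk : T < k + 1
  · -- no hits
    refine ⟨1, one_pos, X₁ + 16, ?_⟩
    intro X hX b hb V hV hVc
    obtain ⟨hVV, hlow⟩ := hX₁ X (by omega) b hb
    have h0 : ∀ H : Fin T → Fin K → ℕ, hitsC δm Λ k X b T K H = 0 := by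
      intro H
      unfold hitsC
      rw [Finset.card_eq_zero, Finset.filter_eq_empty_iff]
      rintro n _ ⟨_, _, S, _, hS, _⟩
      have := Finset.card_le_univ S
      rw [Fintype.card_fin] at this
      omega
    have hX0 : (0 : ℝ) < X := by exact_mod_cast (by omega : 0 < X)
    have hW0 : (0 : ℝ) < Wm X := by
      exact_mod_cast primorial_pos _
    have h1 : ExC (fun F => 1 * ex X (k + 1) ≤ (cnB X b F : ℝ)) k T K V = ∅ := by
      rw [Finset.eq_empty_iff_forall_notMem]
      intro H hH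
      unfold ExC at hH
      rw [Finset.mem_filter, Fintype.mem_piFinset] at hH
      obtain ⟨hH1, hH2, hH3⟩ := hH
      have hHV : ∀ g i, H g i ∈ V := fun g i => Fintype.mem_piFinset.1 (hH1 g) i
      have h2 := hlow H (fun g i => hV (hHV g i)) hH2
      rw [h0 H] at h2
      have h3 : 0 < c * Om δm X (T * K) := by unfold Om; positivity
      push_cast at h2
      linarith
    rw [h1]
    simp only [Finset.card_empty, Nat.cast_zero]
    positivity
  · -- the main case
    push Not at hTk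
    have hN : k + 1 ≤ T * K := hTk.trans (Nat.le_mul_of_pos_right T (by omega))
    obtain ⟨m, hm⟩ : ∃ m : ℕ, T * K = (k + 1) + m := ⟨T * K - (k + 1), by omega⟩
    obtain ⟨Q, hQ⟩ : ∃ Q : ℝ, Q = ((T * K : ℕ) : ℝ) ^ (T * K) * (1 / η) ^ m := ⟨_, rfl⟩
    obtain ⟨P, hP⟩ : ∃ P : ℝ, P = ε * c * (cV / δm) ^ (T * K) := ⟨_, rfl⟩
    have hTK : 0 < T * K := by omega
    have hTK' : (0 : ℝ) < ((T * K : ℕ) : ℝ) := by exact_mod_cast hTK
    have hP0 : 0 < P := by rw [hP]; positivity
    have hQ0 : 0 < Q := by rw [hQ]; positivity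
    refine ⟨P / Q, by positivity, X₁ + X₃ + 16, ?_⟩
    intro X hX b hb V hV hVc
    obtain ⟨hVV, hlow⟩ := hX₁ X (by omega) b hb
    have hmv := hX₃ X (by omega)
    obtain ⟨L, hL⟩ : ∃ L : ℝ, L = Real.log X := ⟨_, rfl⟩
    have hL0 : 0 < L := by
      rw [hL]
      apply Real.log_pos
      have : (16 : ℝ) ≤ X := by exact_mod_cast (by omega : 16 ≤ X)
      linarith
    have hX0 : (0 : ℝ) < X := by exact_mod_cast (by omega : 0 < X)
    have hW0 : (0 : ℝ) < Wm X := by
      exact_mod_cast primorial_pos _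
    have hφ0 : (0 : ℝ) < Nat.totient (Wm X) := by
      have : 0 < Wm X := primorial_pos _
      exact_mod_cast Nat.totient_pos.2 this
    obtain ⟨φ, hφ⟩ : ∃ φ : ℝ, φ = (Nat.totient (Wm X) : ℝ) / Wm X := ⟨_, rfl⟩
    have hφp : 0 < φ := by rw [hφ]; positivity
    rw [← hL, ← hφ] at hVc hmv
    have hex : ex X (k + 1) = (X : ℝ) / Wm X * (1 / (L * φ)) ^ (k + 1) := by
      unfold ex
      rw [← hL, hφ]
      congr 2
      field_simp
    have hex0 : 0 < ex X (k + 1) := by rw [hex]; positivity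
    have hx0 : 0 < (X : ℝ) / Wm X := by positivity
    have hmain := count (T := T) (K := K) (k := k) δm Λ (P / Q) X b V hV
      (c * Om δm X (T * K)) hlow (by positivity)
    obtain ⟨E, hE⟩ : ∃ E : ℝ,
      E = ((ExC (fun F => P / Q * ex X (k + 1) ≤ (cnB X b F : ℝ)) k T K V).card : ℝ) := ⟨_, rfl⟩
    rw [← hE] at hmain ⊢
    have hE0 : 0 ≤ E := by rw [hE]; exact Nat.cast_nonneg _
    obtain ⟨x, hx⟩ : ∃ x : ℝ, x = L * φ := ⟨_, rfl⟩
    have hxp : 0 < x := by rw [hx]; positivity
    obtain ⟨v, hv⟩ : ∃ v : ℝ, v = (V.card : ℝ) := ⟨_, rfl⟩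
    obtain ⟨w, hw⟩ : ∃ w : ℝ, w = VV δm X := ⟨_, rfl⟩
    obtain ⟨z, hz⟩ : ∃ z : ℝ, z = (X : ℝ) / Wm X := ⟨_, rfl⟩
    have hv0 : 0 < v := by
      rw [hv]
      refine lt_of_lt_of_le ?_ hVc
      positivity
    have hOm : Om δm X (T * K) = z * w ^ (T * K) := by rw [hz, hw]; rfl
    rw [hOm, hex, ← hx, ← hv, ← hz] at hmain
    rw [← hv]
    rw [← hx, ← hv] at hVc
    rw [← hw] at hmv hVV
    rw [← hz] at hx0
    -- `E c w ^ N ≤ N ^ N δ (v / x) ^ (k + 1)`
    have h1 : E * (c * w ^ (T * K)) ≤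
        ((T * K : ℕ) : ℝ) ^ (T * K) * (P / Q * (v / x) ^ (k + 1)) := by
      have h2 : (E * (c * w ^ (T * K))) * z ≤
          (((T * K : ℕ) : ℝ) ^ (T * K) * (P / Q * (v / x) ^ (k + 1))) * z := by
        calc (E * (c * w ^ (T * K))) * z = E * (c * (z * w ^ (T * K))) := by ring
          _ ≤ _ := hmain
          _ = _ := by rw [div_pow, div_pow, one_pow]; ring
      exact le_of_mul_le_mul_right h2 hx0
    -- `w ≥ cV / (δm x)`
    have h2 : cV / δm ≤ w * x := by
      rw [div_le_iff₀ hδm0, hx]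
      calc cV ≤ w * φ * (δm * L) := hmv
        _ = _ := by ring
    have h3 : (cV / δm) ^ (T * K) ≤ w ^ (T * K) * x ^ (T * K) := by
      rw [← mul_pow]
      exact pow_le_pow_left₀ (by positivity) h2 _
    -- `x ≤ v / η`
    have h4 : x ≤ (1 / η) * v := by
      rw [one_div, inv_mul_eq_div, le_div_iff₀ hη]
      linarith
    have h5 : x ^ m ≤ (1 / η) ^ m * v ^ m := by
      rw [← mul_pow]
      exact pow_le_pow_left₀ hxp.le h4 _
    have h6 : E * P ≤ (ε * v ^ (T * K)) * P := by
      calc E * P = ε * (E * (c * (cV / δm) ^ (T * K))) := by rw [hP]; ring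
        _ ≤ ε * (E * (c * (w ^ (T * K) * x ^ (T * K)))) := by gcongr
        _ = ε * ((E * (c * w ^ (T * K))) * x ^ (T * K)) := by ring
        _ ≤ ε * ((((T * K : ℕ) : ℝ) ^ (T * K) * (P / Q * (v / x) ^ (k + 1))) * x ^ (T * K)) := by
            gcongr
        _ = ε * (((T * K : ℕ) : ℝ) ^ (T * K) * (P / Q * (v ^ (k + 1) * x ^ m))) := by
            have h7 : (v / x) ^ (k + 1) * x ^ (T * K) = v ^ (k + 1) * x ^ m := by
              rw [hm, pow_add x (k + 1) m, ← mul_assoc, ← mul_pow, div_mul_cancel₀ _ hxp.ne']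
            rw [← h7]; ring
        _ ≤ ε * (((T * K : ℕ) : ℝ) ^ (T * K) *
              (P / Q * (v ^ (k + 1) * ((1 / η) ^ m * v ^ m)))) := by gcongr
        _ = ε * v ^ (T * K) * (P / Q * Q) := by
            rw [hQ]
            have h8 : v ^ (T * K) = v ^ (k + 1) * v ^ m := by rw [← pow_add, ← hm]
            rw [h8]; ring
        _ = (ε * v ^ (T * K)) * P := by rw [div_mul_cancel₀ _ hQ0.ne']
    exact le_of_mul_le_mul_right h6 hP0

end Pool.Agent.W407.HRC
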